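import Pool.Agent.Helper50.GX.Defs
import Pool.Agent.Helper85.GC.COPY

/-!
# Module COPY: disjoint copies and isolated vertices
-/

set_option autoImplicit false

namespace Pool.Agent.Helper50.GX

open Pool.Agent.Helper69.GC (copyGraph copy_nbr_card copy_two_mul_edges)

/-- The embedding of the copy with index `m` -/
def copy_hom {V W : Type} (G : SimpleGraph V) (M : ℕ) (emb : V × Fin M ↪ W) (m : Fin M) :
    G →g ((copyGraph G M).map emb) where
  toFun x := emb (x, m)
  map_rel' := by
    intro a b h
    rw [SimpleGraph.map_adj_apply]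
    exact ⟨h, rfl⟩

theorem copy_hom_inj {V W : Type} (G : SimpleGraph V) (M : ℕ) (emb : V × Fin M ↪ W) (m : Fin M) :
    Function.Injective (copy_hom G M emb m) := by
  intro a b h
  have h1 : emb (a, m) = emb (b, m) := h
  exact congrArg Prod.fst (emb.injective h1)

theorem copy_lift {V W : Type} (G : SimpleGraph V) (M : ℕ) (emb : V × Fin M ↪ W) (m : Fin M)
    {u v : W} (w : ((copyGraph G M).map emb).Walk u v) :
    ∀ (x : V) (hx : copy_hom G M emb m x = u), ∃ (y : V) (w' : G.Walk x y)
      (hy : copy_hom G M emb m y = v), (w'.map (copy_hom G M emb m)).copy hx hy = w := by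
  induction w with
  | nil =>
    intro x hx
    subst hx
    exact ⟨x, SimpleGraph.Walk.nil, rfl, rfl⟩
  | @cons u b v h p ih =>
    intro x hx
    subst hx
    have h' := h
    rw [SimpleGraph.map_adj] at h'
    obtain ⟨a', b', hab, ha, hb⟩ := h'
    have ha' : a' = (x, m) := emb.injective ha
    subst ha'
    have hb' : copy_hom G M emb m b'.1 = b := by
      rw [← hb]
      show emb (b'.1, m) = emb b'
      congr 1
      exact Prod.ext rfl hab.2
    subst hb'
    obtain ⟨y, w', hy, hw⟩ := ih b'.1 rfl
    subst hy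
    refine ⟨y, SimpleGraph.Walk.cons hab.1 w', rfl, ?_⟩
    rw [← hw]
    rfl

theorem st_COPY : ST_COPY := by
  intro V _ _ G k q n hq hNB hn
  classical
  have := Fintype.ofFinite V
  have hcpos : 0 < Nat.card V := Nat.card_pos
  have hle : Fintype.card (V × Fin (n / Nat.card V)) ≤ Fintype.card (Fin n) := by
    rw [Fintype.card_prod, Fintype.card_fin, Fintype.card_fin, ← Nat.card_eq_fintype_card]
    exact Nat.mul_div_le n _
  obtain ⟨emb⟩ := Function.Embedding.nonempty_of_card_le hle
  refine ⟨(copyGraph G (n / Nat.card V)).map emb, ?_, ?_⟩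
  · intro u w hw
    have hu : ∃ x m, emb (x, m) = u := by
      cases w with
      | nil => exact absurd hw SimpleGraph.Walk.IsCycle.not_of_nil
      | cons h p =>
        rw [SimpleGraph.map_adj] at h
        obtain ⟨a', b', hab, ha, hb⟩ := h
        exact ⟨a'.1, a'.2, ha⟩
    obtain ⟨x, m, hx⟩ := hu
    obtain ⟨y, w', hy, hw'⟩ := copy_lift G _ emb m w x hx
    have hxy : y = x := copy_hom_inj G _ emb m (hy.trans hx.symm)
    subst hxy
    have hcyc : w'.IsCycle := by
      rw [← SimpleGraph.Walk.map_isCycle_iff_of_injective (copy_hom_inj G _ emb m)]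
      have h2 := hw
      rw [← hw'] at h2
      exact (SimpleGraph.Walk.isCycle_copy _ _).1 h2
    have hlen : w.length = w'.length := by
      rw [← hw', SimpleGraph.Walk.length_copy, SimpleGraph.Walk.length_map]
    rw [hlen]
    exact hNB _ w' hcyc
  have he : ((copyGraph G (n / Nat.card V)).map emb).edgeSet.ncard =
      (copyGraph G (n / Nat.card V)).edgeSet.ncard := by
    rw [SimpleGraph.edgeSet_map]
    exact Set.ncard_image_of_injective _ emb.sym2Map.injective
  have h2 := copy_two_mul_edges (copyGraph G (n / Nat.card V)) q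
    (fun a => (copy_nbr_card G _ a).trans (hq a.1))
  rw [he]
  have h3 : Nat.card (V × Fin (n / Nat.card V)) = Nat.card V * (n / Nat.card V) := by
    rw [Nat.card_prod, Nat.card_eq_fintype_card (α := Fin (n / Nat.card V)), Fintype.card_fin]
  rw [h3] at h2
  have h4 : n < Nat.card V * (n / Nat.card V + 1) := by
    have := Nat.lt_mul_div_succ n hcpos
    exact this
  have h5 : 1 ≤ n / Nat.card V := (Nat.one_le_div_iff hcpos).2 hn
  have h6 : n ≤ 2 * (Nat.card V * (n / Nat.card V)) := by
    have h7 : Nat.card V * (n / Nat.card V + 1) ≤ 2 * (Nat.card V * (n / Nat.card V)) := by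
      nlinarith
    omega
  calc n * q ≤ 2 * (Nat.card V * (n / Nat.card V)) * q := Nat.mul_le_mul_right q h6
    _ = 2 * (Nat.card V * (n / Nat.card V) * q) := by ring
    _ = 2 * (2 * (copyGraph G (n / Nat.card V)).edgeSet.ncard) := by rw [h2]
    _ = 4 * (copyGraph G (n / Nat.card V)).edgeSet.ncard := by ring

end Pool.Agent.Helper50.GX
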