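import Pool.Agent.Helper50.GX.Defs

/-!
# Module PROD: words
-/

set_option autoImplicit false

namespace Pool.Agent.Helper50.GX

open Polynomial

theorem prod_refl {K : Type} [Field K] (P Q : K[X]) (N : ℕ)
    (h : ∀ s, Q.coeff s = if s ≤ N then P.coeff (N - s) else 0) (h2 : ∀ s, N < s → P.coeff s = 0) :
    Q = reflect N P ∧ P.natDegree ≤ N := by
  refine ⟨?_, ?_⟩
  · ext s
    rw [coeff_reflect, h s]
    by_cases hs : s ≤ N
    · rw [if_pos hs, revAt_le hs]
    · rw [if_neg hs, revAt_eq_self_of_lt (not_le.1 hs), h2 s (not_le.1 hs)]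
  · rw [natDegree_le_iff_coeff_eq_zero]
    exact h2

theorem prod_refl' {K : Type} [Field K] (P : K[X]) (N : ℕ) (h2 : P.natDegree ≤ N) :
    (∀ s, (reflect N P).coeff s = if s ≤ N then P.coeff (N - s) else 0) ∧
      ∀ s, N < s → P.coeff s = 0 := by
  rw [natDegree_le_iff_coeff_eq_zero] at h2
  refine ⟨?_, h2⟩
  intro s
  rw [coeff_reflect]
  by_cases hs : s ≤ N
  · rw [if_pos hs, revAt_le hs]
  · rw [if_neg hs, revAt_eq_self_of_lt (not_le.1 hs), h2 s (not_le.1 hs)]

theorem prod_sigma {K : Type} [Field K] (σ : K ≃+* K) (A B : Mat K)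
    (hA : A.map (Polynomial.map (σ : K →+* K)) * Zm = Zm * A)
    (hB : B.map (Polynomial.map (σ : K →+* K)) * Zm = Zm * B) :
    (A * B).map (Polynomial.map (σ : K →+* K)) * Zm = Zm * (A * B) := by
  rw [← coe_mapRingHom] at hA hB ⊢
  rw [Matrix.map_mul, Matrix.mul_assoc, hB, ← Matrix.mul_assoc, hA, Matrix.mul_assoc]

theorem st_PROD (h : ST_MAT) : ST_PROD := by
  intro K _ σ hD a b ha hb j
  have key : ∀ j : ℕ, wd σ a b j * wr σ a b j = ((1 + X : K[X]) ^ j) ^ 2 • (1 : Mat K) ∧
      (wd σ a b j).det = ((1 + X : K[X]) ^ j) ^ 3 ∧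
      (∀ r c : Fin 3, wr σ a b j r c = reflect j (wd σ a b j c r) ∧
        (wd σ a b j c r).natDegree ≤ j) ∧
      (wd σ a b j).map (Polynomial.map (σ : K →+* K)) * Zm = Zm * wd σ a b j := by
    intro j
    induction j with
    | zero =>
      refine ⟨?_, ?_, ?_, ?_⟩
      · simp [wd, wr]
      · simp [wd]
      · intro r c
        simp only [wd, wr]
        by_cases hrc : r = c
        · subst hrc
          simp
        · rw [Matrix.one_apply_ne hrc, Matrix.one_apply_ne (Ne.symm hrc)]
          simp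
      · simp only [wd]
        rw [← coe_mapRingHom, Matrix.map_one _ (map_zero _) (map_one _)]
        simp
    | succ n ih =>
      obtain ⟨i1, i2, i3, i4⟩ := ih
      obtain ⟨p1, -, p3, -, p5, p6, -⟩ := h K σ hD (a n) (ha n) (b n) (hb n)
      obtain ⟨-, q2, -, q4, q5, -, q7⟩ := h K σ hD (b n) (hb n) (a n) (ha n)
      refine ⟨?_, ?_, ?_, ?_⟩
      · simp only [wd, wr]
        calc wd σ a b n * (th σ (a n) * ad σ (b n)) * (th σ (b n) * ad σ (a n) * wr σ a b n)
            = wd σ a b n * (th σ (a n) * (ad σ (b n) * th σ (b n)) * ad σ (a n)) * wr σ a b n := by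
              simp only [Matrix.mul_assoc]
          _ = (1 + X : K[X]) • (1 + X : K[X]) • (wd σ a b n * wr σ a b n) := by
              rw [q2, Matrix.mul_smul, Matrix.mul_one, Matrix.smul_mul, p1, Matrix.mul_smul,
                Matrix.mul_smul, Matrix.mul_one, Matrix.smul_mul, Matrix.smul_mul]
          _ = _ := by
              rw [i1, smul_smul, smul_smul]
              congr 1
              ring
      · simp only [wd]
        rw [Matrix.det_mul, Matrix.det_mul, i2, p3, q4]
        ring
      · intro r c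
        -- the letters
        have l1 : ∀ i k : Fin 3, ∀ s, 1 < s → ((th σ (a n) * ad σ (b n)) i k).coeff s = 0 := by
          intro i k s hs
          rw [q5 i k s, if_neg (not_le.2 hs)]
        have l2 : ∀ i k : Fin 3, (th σ (b n) * ad σ (a n)) i k
            = reflect 1 ((th σ (a n) * ad σ (b n)) k i) ∧
            ((th σ (a n) * ad σ (b n)) k i).natDegree ≤ 1 := fun i k =>
          prod_refl _ _ 1 (p5 i k) (l1 k i)
        refine ⟨?_, ?_⟩
        · simp only [wd, wr]
          rw [Matrix.mul_apply, Matrix.mul_apply, Fin.sum_univ_three, Fin.sum_univ_three,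
            reflect_add, reflect_add, reflect_mul _ _ (i3 0 c).2 (l2 r 0).2,
            reflect_mul _ _ (i3 1 c).2 (l2 r 1).2, reflect_mul _ _ (i3 2 c).2 (l2 r 2).2,
            (l2 r 0).1, (l2 r 1).1, (l2 r 2).1, (i3 0 c).1, (i3 1 c).1, (i3 2 c).1]
          ring
        · simp only [wd]
          rw [Matrix.mul_apply]
          refine natDegree_sum_le_of_forall_le _ _ fun k _ => ?_
          exact natDegree_mul_le_of_le (i3 k c).2 (l2 r k).2
      · simp only [wd]
        exact prod_sigma σ _ _ i4 (prod_sigma σ _ _ p6 q7)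
  obtain ⟨k1, k2, k3, k4⟩ := key j
  refine ⟨k1, k2, ?_, ?_, k4⟩
  · intro r c s
    rw [(k3 r c).1]
    exact (prod_refl' _ j (k3 r c).2).1 s
  · intro r c s hs
    exact (prod_refl' _ j (k3 c r).2).2 s hs

end Pool.Agent.Helper50.GX
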